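import Pool.Agent.N763.MQ.MainH
import Pool.Agent.N763.MQ.MainR
import Pool.Agent.N763.MQ.MonoQ

/-!
# Mazur's question: which hypersurfaces suffice (helper763)

`K` is a number field, `L` is a complete nontrivially normed field with a homomorphism
`σ : K →+* L` of dense range (so `L` is the completion of `K` at a place `v`). `Maz σ S` is Mazur's
finiteness for the closed subset `S = 0` of projective space: the ideals of the local Zariski
closures `Z_x` of its `K`-points at its `L`-points `x` take only finitely many values (the wording
of the frozen statement `S19033`). We prove that `Maz σ S` holds for ALL finite or infinite systems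
`S` of forms as soon as it holds

(1) for the irreducible hypersurfaces;

(2) if `v` is not complex: for the irreducible hypersurfaces `A x₀ + B = 0`, where `A ≠ 0` and `B` are
forms of degrees `d` and `d + 1` in the other variables (they are rational: the projection from the
point `(1 : 0 : … : 0)` of multiplicity `d` is birational);

(3) if `K` has a real place (`v` is arbitrary): for the irreducible quartic hypersurfaces
`q₁² + ⋯ + q_m² = 0`, `qᵢ` quadratic forms over `K`;

(4) if `v` is real: for the irreducible quartic hypersurfaces `A x₀ + B = 0`, `A ≠ 0` a cubic and `B` a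
quartic form in the other variables (they are rational, with a triple point).

The degree four is optimal in (3) and (4) as long as no counterexample of degree three is
excluded: the hypersurfaces of degree at most three are settled (`CubicHypersurfaces`, helper729),
and this theorem is used in the proof. For smooth rational varieties the question is easy (weak
approximation), so (2) and (4) say that for rational varieties all the difficulty is in the
singularities.

Idea of the proof. The Veronese map with ordered tuples and a sum of squares (or an anisotropic form)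
give one equation with the same `K`-points; the local closures are compared along the Veronese map.
For (4), with `Q = ∑ qᵢ²`, the hypersurface `t x_j z² + z⁴ + Q(x) = 0` is rational, and near a real
point with `t x_j > 0` its `K`-points satisfy `z = 0`, `Q(x) = 0`. For (2), with a form `G(z, x)` of
degree `d` such that `|G(z, x)| ≥ c |z|^d` over `L`, the same holds for `t G(z, x) = z^(d + 1)` near the
points with `t ≠ 0`, `z = 0`.
-/

set_option autoImplicit false

namespace Pool.Agent.Results.MP_f9f755_nt.HypersurfacesSuffice

open MvPolynomial Pool.Agent.N763.MQ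

/-- Mazur's finiteness for the closed subset `S = 0` of the projective space: the ideals of the
local Zariski closures of its `K`-points, at all its `L`-points `x`, take only finitely many
values. -/
def Maz {K L : Type} [Field K] [NontriviallyNormedField L] (σ : K →+* L) {n : ℕ}
    (S : Set (MvPolynomial (Fin (n + 1)) K)) : Prop :=
  {J : Set (MvPolynomial (Fin (n + 1)) K) |
    ∃ x : Fin (n + 1) → L, x ≠ 0 ∧ (∀ g ∈ S, eval₂ σ x g = 0) ∧
      J = {f : MvPolynomial (Fin (n + 1)) K |
        ∃ U ∈ nhds x, ∀ y : Fin (n + 1) → K, y ≠ 0 →
          (∀ g ∈ S, eval y g = 0) →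
          (∃ c : L, c ≠ 0 ∧ (fun i => c * σ (y i)) ∈ U) →
          ∀ t : K, eval (t • y) f = 0}}.Finite

/-- The form `A x₀ + B`, where `A` and `B` are forms in the other variables. -/
noncomputable def LinForm {K : Type} [Field K] {n : ℕ} (A B : MvPolynomial (Fin (n + 1)) K) :
    MvPolynomial (Fin (n + 2)) K :=
  rename Fin.succ A * X 0 + rename Fin.succ B

/-- `Maz σ S` for all systems of forms `S`. -/
def All {K L : Type} [Field K] [NontriviallyNormedField L] (σ : K →+* L) : Prop :=
  ∀ (n : ℕ) (S : Set (MvPolynomial (Fin (n + 1)) K)),
    (∀ f ∈ S, ∃ d : ℕ, f.IsHomogeneous d) → Maz σ S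

lemma all_of {K L : Type} [Field K] [NontriviallyNormedField L] {σ : K →+* L}
    (h : ∀ (n : ℕ) (S : Set (MvPolynomial (Fin (n + 1)) K)),
      (∀ f ∈ S, ∃ d : ℕ, f.IsHomogeneous d) → FV σ fun y => ∀ g ∈ S, eval y g = 0) : All σ := by
  intro n S hS
  refine (h n S hS).subset ?_
  rintro _ ⟨x, hx, -, rfl⟩
  exact ⟨x, hx, rfl⟩

lemma FV_of {K L : Type} [Field K] [NontriviallyNormedField L] {σ : K →+* L} {n d : ℕ}
    {F : MvPolynomial (Fin (n + 1)) K} (hF : F.IsHomogeneous d) (h : Maz σ {F}) :
    FV σ fun y => eval y F = 0 := by
  refine FV_of_zero σ F hF (h.subset ?_)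
  rintro _ ⟨x, hx, h0, rfl⟩
  refine ⟨x, hx, ?_, ?_⟩
  · intro g hg
    rw [Set.mem_singleton_iff] at hg
    rw [hg]
    exact h0
  · refine JV_congr σ (fun y _ => ?_) x
    constructor
    · intro hy g hg
      rw [Set.mem_singleton_iff] at hg
      rw [hg]
      exact hy
    · intro hy
      exact hy F (Set.mem_singleton F)

/-- **Mazur's question: which hypersurfaces suffice.** -/
theorem result :
    ∀ (K : Type) [Field K] [NumberField K],
      -- (1) irreducible hypersurfaces
      (∀ (L : Type) [NontriviallyNormedField L] [CompleteSpace L] (σ : K →+* L), DenseRange σ →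
        (∀ (n d : ℕ) (F : MvPolynomial (Fin (n + 1)) K), F.IsHomogeneous d → Irreducible F →
          Maz σ {F}) → All σ) ∧
      -- (2) rational hypersurfaces, `v` not complex
      (∀ (L : Type) [NontriviallyNormedField L] [CompleteSpace L] (σ : K →+* L), DenseRange σ →
        ¬ IsAlgClosed L →
        (∀ (n d : ℕ) (A B : MvPolynomial (Fin (n + 1)) K), A ≠ 0 → A.IsHomogeneous d →
          B.IsHomogeneous (d + 1) → Irreducible (LinForm A B) → Maz σ {LinForm A B}) → All σ) ∧
      -- (3) quartic hypersurfaces, `K` with a real place
      (Nonempty (K →+* ℝ) →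
        ∀ (L : Type) [NontriviallyNormedField L] [CompleteSpace L] (σ : K →+* L), DenseRange σ →
        (∀ (n m : ℕ) (q : Fin m → MvPolynomial (Fin (n + 1)) K), (∀ i, (q i).IsHomogeneous 2) →
          Irreducible (∑ i, q i ^ 2) → Maz σ {∑ i, q i ^ 2}) → All σ) ∧
      -- (4) rational quartic hypersurfaces, `v` real
      (∀ σ : K →+* ℝ,
        (∀ (n : ℕ) (A B : MvPolynomial (Fin (n + 1)) K), A ≠ 0 → A.IsHomogeneous 3 →
          B.IsHomogeneous 4 → Irreducible (LinForm A B) → Maz σ {LinForm A B}) → All σ) := by
  intro K _ _
  refine ⟨?_, ?_, ?_, ?_⟩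
  · intro L _ _ σ hσ hyp
    have : CharZero L := charZero_of_injective_ringHom σ.injective
    have : ProperSpace L := Pool.Agent.W279.Tri.properSpace_of_denseRange σ hσ
    exact all_of fun n S hS => main_hyper σ hσ
      (fun n d F hF hi => FV_of hF (hyp n d F hF hi)) S hS
  · intro L _ _ σ hσ hL hyp
    have : CharZero L := charZero_of_injective_ringHom σ.injective
    have : ProperSpace L := Pool.Agent.W279.Tri.properSpace_of_denseRange σ hσ
    exact all_of fun n S hS => main_rational σ hσ hL
      (fun n d A B hA hAh hBh hi => FV_of (mon_hom hAh hBh) (hyp n d A B hA hAh hBh hi)) S hS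
  · rintro ⟨τ⟩ L _ _ σ hσ hyp
    have : CharZero L := charZero_of_injective_ringHom σ.injective
    have : ProperSpace L := Pool.Agent.W279.Tri.properSpace_of_denseRange σ hσ
    refine all_of fun n S hS => main_quartic τ σ hσ (fun n F hF hi hq => ?_) S hS
    obtain ⟨m, q, hq, rfl⟩ := hq
    exact FV_of hF (hyp n m q hq hi)
  · intro σ hyp
    have hσ : DenseRange σ := by
      refine Dense.mono ?_ (Rat.denseRange_cast (𝕜 := ℝ))
      rintro _ ⟨q, rfl⟩
      exact ⟨(q : K), map_ratCast σ q⟩
    exact all_of fun n S hS => main_real σ hσ
      (fun n A B hA hAh hBh hi => FV_of (mon_hom hAh hBh) (hyp n A B hA hAh hBh hi)) S hS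

end Pool.Agent.Results.MP_f9f755_nt.HypersurfacesSuffice
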